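import Pool.Agent.Y755.FK.Stm

/-!
Project FK (helper755), part ACA: absolute convergence.
-/

set_option autoImplicit false

open Finset

open scoped Classical

namespace Pool.Agent.Y756.FK

open Pool.Agent.Y755.FK

/-- the series of the divisor function -/
lemma sum_dv {x : ℝ} (hx : 0 < x) : Summable fun k : ℕ => if k = 0 then 0 else
    |((k.divisors.card : ℕ) : ℝ)| * (k : ℝ) ^ (-(1 + x)) := by
  have hs : 1 < ((1 + x : ℝ) : ℂ).re := by simp; linarith
  have h1 := ArithmeticFunction.LSeriesSummable_zeta_iff.2 hs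
  have h2 := h1.convolution h1
  have h3 : Summable fun n => ‖LSeries.term (LSeries.convolution
    (fun n => ((ArithmeticFunction.zeta n : ℕ) : ℂ))
    (fun n => ((ArithmeticFunction.zeta n : ℕ) : ℂ))) ((1 + x : ℝ) : ℂ) n‖ := h2.norm
  refine h3.congr fun k => ?_
  rw [LSeries.norm_term_eq]
  by_cases hk : k = 0
  · rw [if_pos hk, if_pos hk]
  · rw [if_neg hk, if_neg hk]
    have e : LSeries.convolution (fun n => ((ArithmeticFunction.zeta n : ℕ) : ℂ))
        (fun n => ((ArithmeticFunction.zeta n : ℕ) : ℂ)) k = ((k.divisors.card : ℕ) : ℂ) := by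
      rw [LSeries.convolution_def]
      simp only []
      have : ∀ p ∈ k.divisorsAntidiagonal, ((ArithmeticFunction.zeta p.1 : ℕ) : ℂ) *
          ((ArithmeticFunction.zeta p.2 : ℕ) : ℂ) = 1 := by
        intro p hp
        rw [Nat.mem_divisorsAntidiagonal] at hp
        have h4 : p.1 ≠ 0 := by
          intro h; rw [h, zero_mul] at hp; exact hp.2 hp.1.symm
        have h5 : p.2 ≠ 0 := by
          intro h; rw [h, mul_zero] at hp; exact hp.2 hp.1.symm
        rw [ArithmeticFunction.zeta_apply_ne h4, ArithmeticFunction.zeta_apply_ne h5]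
        simp
      rw [sum_congr rfl this, sum_const, nsmul_eq_mul, mul_one, ← Nat.map_div_right_divisors,
        card_map]
    rw [e, Complex.norm_natCast, Complex.ofReal_re, abs_of_nonneg (Nat.cast_nonneg _),
      Real.rpow_neg (Nat.cast_nonneg _), div_eq_mul_inv]

lemma AC_le {c : ℕ → ℝ} {C : ℝ} (h : ∀ k : ℕ, 1 ≤ k → |c k| ≤ C * (k.divisors.card : ℕ)) :
    AC c := by
  intro x hx
  refine Summable.of_nonneg_of_le (fun k => ?_) (fun k => ?_) ((sum_dv hx).mul_left C)
  · split_ifs
    · exact le_rfl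
    · positivity
  · by_cases hk : k = 0
    · rw [if_pos hk, if_pos hk, mul_zero]
    · rw [if_neg hk, if_neg hk, ← mul_assoc, abs_of_nonneg
        (Nat.cast_nonneg (k.divisors.card) : (0 : ℝ) ≤ ((k.divisors.card : ℕ) : ℝ))]
      exact mul_le_mul_of_nonneg_right (h k (Nat.one_le_iff_ne_zero.2 hk)) (by positivity)

lemma one_le_dv {k : ℕ} (hk : 1 ≤ k) : (1 : ℝ) ≤ (k.divisors.card : ℕ) := by
  have : 0 < k.divisors.card := card_pos.2 ⟨1, Nat.one_mem_divisors.2 (by omega)⟩
  exact_mod_cast this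

lemma J_abs (a : ℤ) (n : ℕ) : |J a n| ≤ 1 := by
  unfold J
  rcases jacobiSym.trichotomy a n with h | h | h <;> rw [h] <;> simp

lemma JJJ_abs (a b c : ℤ) (k l m : ℕ) : |J a k * J b l * J c m| ≤ 1 := by
  rw [abs_mul, abs_mul]
  have h1 := J_abs a k
  have h2 := J_abs b l
  have h3 := J_abs c m
  calc |J a k| * |J b l| * |J c m| ≤ 1 * 1 * 1 := by gcongr
    _ = 1 := by norm_num

lemma hh_abs (e f : ℤ) (n : ℕ) : |hh e f n| ≤ (n.divisors.card : ℕ) := by
  unfold hh
  refine (abs_sum_le_sum_abs _ _).trans ?_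
  calc _ ≤ ∑ a ∈ n.divisors, (1 : ℝ) := sum_le_sum fun a _ => JJJ_abs _ _ _ _ _ _
    _ = _ := by rw [sum_const, nsmul_eq_mul, mul_one]

lemma cc_abs (e f : ℤ) (n : ℕ) : |cc e f n| ≤ (n.divisors.card : ℕ) := by
  unfold cc
  refine (abs_sum_le_sum_abs _ _).trans ?_
  calc _ ≤ ∑ a ∈ n.divisors.filter (fun a => ¬ (a = 1 ∧ f = 1) ∧ ¬ (n / a = 1 ∧ e = 1)),
        (1 : ℝ) := sum_le_sum fun a _ => JJJ_abs _ _ _ _ _ _
    _ ≤ _ := by
      rw [sum_const, nsmul_eq_mul, mul_one]
      exact_mod_cast card_filter_le _ _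

lemma dv_sqf {n : ℕ} (hn : Squarefree n) : n.divisors.card = 2 ^ om n := by
  rw [Nat.card_divisors hn.ne_zero, om]
  rw [prod_congr rfl (g := fun _ => 2), prod_const]
  intro p hp
  have h1 : n.factorization p ≤ 1 := hn.natFactorization_le_one p
  have h2 : 0 < n.factorization p :=
    (Nat.prime_of_mem_primeFactors hp).factorization_pos_of_dvd hn.ne_zero
      (Nat.dvd_of_mem_primeFactors hp)
  omega

lemma om_mul {n m : ℕ} (hn : Squarefree n) (hm : m ∣ n) : om m + om (n / m) = om n := by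
  have hmn : m * (n / m) = n := Nat.mul_div_cancel' hm
  have hs : Squarefree (m * (n / m)) := by rw [hmn]; exact hn
  have hco : Nat.Coprime m (n / m) := Nat.coprime_of_squarefree_mul hs
  have h2 : om n = om (m * (n / m)) := by rw [hmn]
  rw [h2, om, om, om, hco.primeFactors_mul, card_union_of_disjoint hco.disjoint_primeFactors]

/-- sums over the factorizations of a squarefree number -/
lemma conv_abs (F G : ℕ → ℝ) (hF : ∀ n, |F n| ≤ (n.divisors.card : ℕ))
    (hG : ∀ n, |G n| ≤ (n.divisors.card : ℕ)) {n : ℕ} (hn : Squarefree n) :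
    |(1 / 2 : ℝ) ^ om n * ∑ m ∈ n.divisors, F m * G (n / m)| ≤ (n.divisors.card : ℕ) := by
  rw [abs_mul, abs_of_pos (by positivity)]
  have h1 : |∑ m ∈ n.divisors, F m * G (n / m)| ≤ ∑ m ∈ n.divisors, (2 : ℝ) ^ om n := by
    refine (abs_sum_le_sum_abs _ _).trans (sum_le_sum fun m hm => ?_)
    have hmn := Nat.dvd_of_mem_divisors hm
    have hm1 : Squarefree m := hn.squarefree_of_dvd hmn
    have hm2 : Squarefree (n / m) := hn.squarefree_of_dvd (Nat.div_dvd_of_dvd hmn)
    have h2 := hF m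
    have h3 := hG (n / m)
    rw [dv_sqf hm1] at h2
    rw [dv_sqf hm2] at h3
    rw [abs_mul, ← om_mul hn hmn, pow_add]
    push_cast at h2 h3
    gcongr
  rw [sum_const, nsmul_eq_mul] at h1
  calc (1 / 2 : ℝ) ^ om n * |∑ m ∈ n.divisors, F m * G (n / m)|
      ≤ (1 / 2 : ℝ) ^ om n * ((n.divisors.card : ℕ) * (2 : ℝ) ^ om n) := by gcongr
    _ = ((1 / 2 : ℝ) * 2) ^ om n * (n.divisors.card : ℕ) := by rw [mul_pow]; ring
    _ = _ := by norm_num

lemma gk_abs (k : ℕ) : |gk k| ≤ (1 / 2 : ℝ) ^ om k := by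
  unfold gk
  split_ifs
  · rw [abs_mul, abs_pow, abs_pow]
    have h1 : |(-1 / 2 : ℝ)| ^ (k.primeFactorsList.length - om k) ≤ 1 := by
      apply pow_le_one₀ (abs_nonneg _)
      rw [abs_le]; constructor <;> norm_num
    have h2 : |(1 / 2 : ℝ)| = 1 / 2 := abs_of_pos (by norm_num)
    rw [h2]
    calc _ ≤ (1 / 2 : ℝ) ^ om k * 1 := by gcongr
      _ = _ := mul_one _
  · simp only [abs_zero]
    positivity

lemma rad_sqf (k : ℕ) : Squarefree (rad k) := by
  unfold rad
  apply Finset.squarefree_prod_of_pairwise_isCoprime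
  · intro p hp q hq hpq
    have h1 := Nat.prime_of_mem_primeFactors hp
    have h2 := Nat.prime_of_mem_primeFactors hq
    exact Nat.coprime_iff_isRelPrime.1 ((Nat.coprime_primes h1 h2).2 hpq)
  · intro p hp
    exact (Nat.prime_of_mem_primeFactors hp).squarefree

lemma om_rad (k : ℕ) : om (rad k) = om k := by
  unfold om rad
  rw [Nat.primeFactors_prod_primeFactors]

lemma fr_le {x : ℝ} (hx : 0 < x) {n : ℕ} (hn : Squarefree n) :
    (2 : ℝ) ^ om n * fr x n ≤ (n : ℝ) ^ (-(1 + x)) := by
  have h1 : (n : ℝ) = ∏ p ∈ n.primeFactors, (p : ℝ) := by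
    conv_lhs => rw [← Nat.prod_primeFactors_of_squarefree hn]
    push_cast
    rfl
  unfold fr om
  rw [h1, ← Real.finsetProd_rpow _ _ (fun p _ => Nat.cast_nonneg p), ← prod_const,
    ← prod_mul_distrib]
  refine prod_le_prod (fun p hp => by positivity) fun p hp => ?_
  have hp0 : (0 : ℝ) < p := by exact_mod_cast (Nat.prime_of_mem_primeFactors hp).pos
  have h2 : 0 < (p : ℝ) ^ (1 + x) := by positivity
  rw [Real.rpow_neg hp0.le, ← div_eq_mul_inv, ← one_div, div_le_div_iff₀ (by positivity) h2]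
  linarith

theorem t_ACA : S_ACA := by
  intro e f e' f' _ _ _ _
  refine ⟨?_, ?_, ?_, ?_, ?_, ?_, ?_⟩
  · apply AC_le (C := 1)
    intro k _
    rw [one_mul]
    split_ifs with h
    · exact conv_abs (hh e f) (hh e' f') (hh_abs e f) (hh_abs e' f') h.2
    · simp
  · apply AC_le (C := 1)
    intro k _
    rw [one_mul, rr]
    split_ifs with h
    · exact conv_abs (cc e f) (cc e' f') (cc_abs e f) (cc_abs e' f') h.2
    · simp
  · apply AC_le (C := 1)
    intro k hk
    rw [one_mul, r1]
    split_ifs with h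
    · have h1 := cc_abs e f k
      have h2 := one_le_dv hk
      rw [abs_mul, abs_of_pos (by positivity)]
      have h3 : (1 / 2 : ℝ) ^ om k ≤ 1 := pow_le_one₀ (by norm_num) (by norm_num)
      calc (1 / 2 : ℝ) ^ om k * |cc e f k| ≤ 1 * (k.divisors.card : ℕ) := by gcongr
        _ = _ := one_mul _
    · simp
  · apply AC_le (C := 2)
    intro k hk
    unfold we
    have h1 := cc_abs e f (rad k)
    rw [dv_sqf (rad_sqf k), om_rad] at h1
    push_cast at h1
    have h2 := gk_abs k
    have h3 : |gk k * cc e f (rad k)| ≤ 1 := by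
      rw [abs_mul]
      calc |gk k| * |cc e f (rad k)| ≤ (1 / 2 : ℝ) ^ om k * 2 ^ om k := by gcongr
        _ = 1 := by rw [← mul_pow]; norm_num
    have h4 : |(if k = 1 then bt e f else 0)| ≤ 1 := by
      unfold bt
      split_ifs <;> simp
    have h5 := one_le_dv hk
    calc _ ≤ |gk k * cc e f (rad k)| + |(if k = 1 then bt e f else 0)| := abs_sub _ _
      _ ≤ 2 * (k.divisors.card : ℕ) := by linarith
  · apply AC_le (C := 1)
    intro k hk
    have h5 := one_le_dv hk
    rw [one_mul]
    split_ifs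
    · simpa using h5
    · simp
  · apply AC_le (C := 1)
    intro k hk
    have h5 := one_le_dv hk
    rw [one_mul]
    split_ifs
    · rw [abs_of_pos (by positivity)]
      exact (pow_le_one₀ (by norm_num) (by norm_num)).trans h5
    · simp
  · intro x hx
    have h0 : Summable fun n : ℕ => (n : ℝ) ^ (-(1 + x)) :=
      Real.summable_nat_rpow.2 (by linarith)
    refine Summable.of_nonneg_of_le (fun n => ?_) (fun n => ?_) h0
    · split_ifs
      · have : 0 ≤ fr x n := by
          unfold fr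
          positivity
        positivity
      · exact le_rfl
    · split_ifs with h
      · have h1 := cc_abs e f n
        rw [dv_sqf h.2] at h1
        push_cast at h1
        have h2 : 0 ≤ fr x n := by
          unfold fr
          positivity
        exact (mul_le_mul_of_nonneg_right h1 h2).trans (fr_le hx h.2)
      · positivity

end Pool.Agent.Y756.FK
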