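import Pool.Agent.Y755.FK.Stm
import Pool.Agent.Helper919.NonRes

/-!
Project FK (helper755), part CHAR: the real characters `n ↦ (D/n)`, `n` odd
(the construction follows `Pool.Agent.TH134.GR.Lv`).
-/

set_option autoImplicit false

namespace Pool.Agent.Y756.FK

open Finset Pool.Agent.Y755.FK

/-- the function `n ↦ (D/n)` for odd `n`, `0` for even `n` -/
def jf (D : ℤ) (n : ℕ) : ℤ := if Odd n then jacobiSym D n else 0

lemma jf_mod (D : ℤ) (n : ℕ) : jf D (n % (4 * D.natAbs)) = jf D n := by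
  unfold jf
  have hpar : Odd (n % (4 * D.natAbs)) ↔ Odd n := by
    rw [Nat.odd_iff, Nat.odd_iff]
    have : n % (4 * D.natAbs) % 2 = n % 2 := by
      rw [Nat.mod_mod_of_dvd]
      exact ⟨2 * D.natAbs, by ring⟩
    rw [this]
  by_cases h : Odd n
  · rw [if_pos h, if_pos (hpar.2 h)]
    exact (jacobiSym.mod_right D h).symm
  · rw [if_neg h, if_neg (fun h' => h (hpar.1 h'))]

lemma jf_mul (D : ℤ) (m n : ℕ) : jf D (m * n) = jf D m * jf D n := by
  unfold jf
  by_cases hm : Odd m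
  · by_cases hn : Odd n
    · rw [if_pos hm, if_pos hn, if_pos (hm.mul hn)]
      have : NeZero m := ⟨hm.pos.ne'⟩
      have : NeZero n := ⟨hn.pos.ne'⟩
      exact jacobiSym.mul_right D m n
    · rw [if_neg hn, if_neg (fun h => hn (Nat.odd_mul.1 h).2), mul_zero]
  · rw [if_neg hm, if_neg (fun h => hm (Nat.odd_mul.1 h).1), zero_mul]

lemma jf_one (D : ℤ) : jf D 1 = 1 := by
  unfold jf
  simp

lemma jf_trich (D : ℤ) (n : ℕ) : jf D n = 0 ∨ jf D n = 1 ∨ jf D n = -1 := by
  unfold jf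
  split_ifs
  · exact jacobiSym.trichotomy D n
  · exact Or.inl rfl

lemma jf_nonunit (D : ℤ) (n : ℕ) (h : ¬ n.Coprime (4 * D.natAbs)) : jf D n = 0 := by
  unfold jf
  by_cases hn : Odd n
  · rw [if_pos hn]
    refine jacobiSym.eq_zero_iff.2 ⟨hn.pos.ne', fun hg => h ?_⟩
    have h4 : n.Coprime 4 := by
      have : n.Coprime 2 := (Nat.coprime_two_right).2 hn
      exact Nat.Coprime.mul_right this this
    have hD' : n.Coprime D.natAbs := by
      rw [Nat.coprime_comm]
      simpa [Int.gcd] using hg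
    exact Nat.Coprime.mul_right h4 hD'
  · rw [if_neg hn]

/-- the character -/
noncomputable def psi (D : ℤ) (hD : D ≠ 0) : DirichletCharacter ℂ (4 * D.natAbs) where
  toFun a := ((jf D a.val : ℤ) : ℂ)
  map_one' := by
    have h1 : 1 < 4 * D.natAbs := by
      have := Int.natAbs_pos.2 hD
      omega
    have : Fact (1 < 4 * D.natAbs) := ⟨h1⟩
    rw [ZMod.val_one, jf_one]
    simp
  map_mul' a b := by
    have : NeZero (4 * D.natAbs) := ⟨by have := Int.natAbs_pos.2 hD; omega⟩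
    rw [ZMod.val_mul, jf_mod, jf_mul]
    push_cast
    rfl
  map_nonunit' a ha := by
    have : NeZero (4 * D.natAbs) := ⟨by have := Int.natAbs_pos.2 hD; omega⟩
    have h : ¬ a.val.Coprime (4 * D.natAbs) := by
      intro hc
      apply ha
      have := (ZMod.isUnit_iff_coprime a.val (4 * D.natAbs)).2 hc
      rwa [ZMod.natCast_zmod_val] at this
    simp only [jf_nonunit D _ h]
    simp

lemma psi_nat (D : ℤ) (hD : D ≠ 0) (n : ℕ) :
    psi D hD (n : ZMod (4 * D.natAbs)) = ((jf D n : ℤ) : ℂ) := by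
  change ((jf D ((n : ZMod (4 * D.natAbs))).val : ℤ) : ℂ) = _
  rw [ZMod.val_natCast, jf_mod]

lemma psi_sq (D : ℤ) (hD : D ≠ 0) : psi D hD ^ 2 = 1 := by
  apply MulChar.IsQuadratic.sq_eq_one
  intro a
  change ((jf D a.val : ℤ) : ℂ) = 0 ∨ ((jf D a.val : ℤ) : ℂ) = 1 ∨ ((jf D a.val : ℤ) : ℂ) = -1
  rcases jf_trich D a.val with h | h | h <;> rw [h] <;> simp

lemma psi_ne (D : ℤ) (hD : D ≠ 0) (h : ∃ n : ℕ, Odd n ∧ jacobiSym D n = -1) : psi D hD ≠ 1 := by
  obtain ⟨n, hn, hj⟩ := h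
  intro he
  have h1 := psi_nat D hD n
  rw [he] at h1
  have h2 : jf D n = -1 := by unfold jf; rw [if_pos hn, hj]
  rw [h2] at h1
  by_cases hu : IsUnit (n : ZMod (4 * D.natAbs))
  · rw [MulChar.one_apply hu] at h1
    norm_num at h1
  · rw [MulChar.map_nonunit _ hu] at h1
    norm_num at h1

theorem t_CHAR : S_CHAR := by
  intro D hD h1
  have hD0 : D ≠ 0 := hD.ne_zero
  have hna := Int.natAbs_pos.2 hD0
  refine ⟨4 * D.natAbs, ⟨by omega⟩, psi D hD0, ?_, ⟨?_, ?_⟩, psi_sq D hD0, ?_⟩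
  · push_cast
    rw [Nat.cast_natAbs, Int.cast_abs]
  · intro n hn
    rw [psi_nat, jf, if_pos hn, J]
    push_cast
    rfl
  · intro n hn
    rw [psi_nat, jf, if_neg (Nat.not_odd_iff_even.2 hn)]
    simp
  · apply psi_ne
    apply Pool.Agent.Helper919.exists_jacobi_neg_one
    rintro ⟨r, hr⟩
    have h2 : IsUnit r := hD r ⟨1, by rw [hr, mul_one]⟩
    apply h1
    rcases Int.isUnit_iff.1 h2 with h | h <;> rw [hr, h] <;> norm_num

end Pool.Agent.Y756.FK
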